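import Mathlib
import Pool.Agent.N178.HW.StmC

/-!
# GHC2/K: the traces of the complex structure on the irreducible submodules (for helper178)
-/

set_option linter.unusedSectionVars false

namespace Pool.Agent.N141.GHC

open Matrix Module Pool.Agent.W437.HC Pool.Agent.W437.HD Pool.Agent.TH504.CB Pool.Agent.Y90
open Pool.Agent.W548.Odd hiding cv
open Pool.Agent.H204R3.CM (IsHodge)
open Pool.Agent.W437.HP (cK cK_mul cK_one)
open Pool.Agent.R915 Pool.Agent.N178.HW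

noncomputable section

section fac

variable {g a : ℕ} {Z : Matrix (Fin g) (Fin g) ℂ} {Z' : Matrix (Fin a) (Fin a) ℂ}
  {E : Matrix (Fin g ⊕ Fin g) (Fin a ⊕ Fin a) ℚ} {F : Matrix (Fin a ⊕ Fin a) (Fin g ⊕ Fin g) ℚ}

/-- Factors of a period matrix are factors of the abelian variety. -/
theorem fac_hom (hf : Fac Z Z' E F) (h : PM Z) (h' : PM Z') :
    ∃ i : (AVZ h').H →ₗ[ℚ] (AVZ h).H, IsHom (AVZ h') (AVZ h) i ∧ Function.Injective i := by
  obtain ⟨Ψ₁, h₁⟩ := h'.cht.hom h.cht (R := E) (by rw [DJ_JR, DJ_JR]; exact hf.de.symm)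
  refine ⟨Matrix.mulVecLin E, ⟨Ψ₁, fun v => h₁ v⟩, ?_⟩
  intro x y hxy
  have h2 : E *ᵥ x = E *ᵥ y := hxy
  have h3 := congrArg (fun v => F *ᵥ v) h2
  beta_reduce at h3
  rw [mulVec_mulVec, mulVec_mulVec, hf.fe, one_mulVec, one_mulVec] at h3
  exact h3

theorem nice_fac (hf : Fac Z Z' E F) (h : PM Z) (h' : PM Z') (hs : IsSimpleAV Z') (ha : 0 < a)
    {d : ℚ} (hG : Good d (AVZ h)) : Nice d (AVZ h') := by
  obtain ⟨i, hi, hinj⟩ := fac_hom hf h h'
  exact hG _ ⟨simple_of a h' hs ha, i, hi, hinj⟩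

theorem lcf (h : PM Z) {d : ℚ} (hG : Good d (AVZ h)) : LCF' Z := by
  intro a Z' E F hf h' hsim ha
  have hN := nice_fac hf h h' hsim ha hG
  by_cases hcm : HasCMult (AVZ h')
  · exact Or.inr hcm
  refine Or.inl ⟨hcm, fun U hU => ?_⟩
  have hsim' := simple_of a h' hsim ha
  rcases hN.ty with k | k | k | k | k
  · exact SmallDim.lc h' hsim' ha ⟨k, fun h1 => absurd h1 hcm⟩ hU
  · exact k.lc h' hU
  · exact k.lc h' hsim' ha hU
  · exact k.lc h' hsim' ha hU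
  · exact k.lc h' hsim' ha hU

end fac

/-- The sign depends only on the quadratic field. -/
theorem rho_scale {d δ : ℚ} (hd : 0 < d) (hδ : 0 < δ) {r : ℚ} (h : δ = d * r ^ 2) (σ : ℂ ≃+* ℂ) :
    rho δ σ = rho d σ := by
  obtain ⟨s, hs0, hs⟩ : ∃ s : ℚ, 0 ≤ s ∧ δ = d * s ^ 2 := ⟨|r|, abs_nonneg r, by rw [sq_abs, h]⟩
  have h1 : (rt δ : ℂ) = (s : ℂ) * (rt d : ℂ) := by
    have h2 : rt δ = (s : ℝ) * rt d := by
      unfold rt
      rw [hs]
      push_cast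
      rw [Real.sqrt_mul (by exact_mod_cast hd.le), Real.sqrt_sq (by exact_mod_cast hs0), mul_comm]
    rw [h2]
    push_cast
    rfl
  have h3 := rho_spec hδ σ
  have h4 := rho_spec hd σ
  have h5 : σ (Complex.I * rt δ) = (s : ℂ) * σ (Complex.I * rt d) := by
    have e : Complex.I * (rt δ : ℂ) = (s : ℂ) * (Complex.I * rt d) := by rw [h1]; ring
    rw [e, map_mul, map_ratCast]
  rw [h5, h4, h1] at h3
  have hr : (s : ℂ) ≠ 0 := by
    intro h0
    rw [h0, zero_mul] at h1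
    exact rt_neC hδ h1
  have h6 : ((rho d σ : ℤ) : ℂ) * ((s : ℂ) * (Complex.I * rt d)) =
      ((rho δ σ : ℤ) : ℂ) * ((s : ℂ) * (Complex.I * rt d)) := by
    linear_combination h3
  have h7 := mul_right_cancel₀ (mul_ne_zero hr (mul_ne_zero Complex.I_ne_zero (rt_neC hd))) h6
  exact_mod_cast h7.symm

section kx

variable {g a : ℕ} {Z : Matrix (Fin g) (Fin g) ℂ} {Z' : Matrix (Fin a) (Fin a) ℂ}
  {E : Matrix (Fin g ⊕ Fin g) (Fin a ⊕ Fin a) ℚ} {F : Matrix (Fin a ⊕ Fin a) (Fin g ⊕ Fin g) ℚ}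
  {U : Submodule ℂ (Fin g ⊕ Fin g → ℂ)} {φ : Matrix (Fin a ⊕ Fin a) (Fin a ⊕ Fin a) ℚ} {α : ℂ}
  {δ : ℚ}

theorem kx_tr (k : KX Z U a Z' E F φ α δ) {d : ℚ} (hd : 0 < d) (hN : Nice d (AVZ k.pm))
    (hU : Stab (LZ Z) U) :
    (tr Z U).natAbs ≤ 1 ∧ ∀ σ, tr Z (cjS σ U) = tr Z U * rho d σ := by
  have h0 : tr Z' (U.map (ml F)) = tr Z U := k.fac.tr_map k.inj hU
  by_cases ht : tr Z U = 0
  · refine ⟨by rw [ht]; norm_num, fun σ => ?_⟩
    rw [k.tr_rho hU, h0, ht, zero_mul, zero_mul]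
  have hc : qm φ * DZ Z' = DZ Z' * qm φ := (k.kw.comm _ DZ_mem).symm
  obtain ⟨Ψ, hΨ⟩ := k.pm.cht.hom k.pm.cht (R := φ) (by rw [DJ_JR]; exact hc)
  have h1 := pd_sig k.pm hc hΨ α k.kw.mem
  have h2 : ∀ v, v ∈ cjS cc (U.map (ml F)) ↔ qm φ *ᵥ v = (-α) • v := by
    intro v
    rw [k.kw.cj, k.kw.cc_al]
  have h3 := pd_sig k.pm hc hΨ (-α) h2
  rw [pd_cc] at h3
  have e1 : Ψ - (-α) • LinearMap.id = Ψ + α • LinearMap.id := by
    refine LinearMap.ext fun v => ?_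
    simp only [LinearMap.sub_apply, LinearMap.add_apply, LinearMap.smul_apply, LinearMap.id_apply]
    rw [neg_smul, sub_neg_eq_add]
  have e2 : Ψ + (-α) • LinearMap.id = Ψ - α • LinearMap.id := by
    refine LinearMap.ext fun v => ?_
    simp only [LinearMap.sub_apply, LinearMap.add_apply, LinearMap.smul_apply, LinearMap.id_apply]
    rw [neg_smul, ← sub_eq_add_neg]
  have hΨ' : ∀ v, Ψ ((AVZ k.pm).per v) = (AVZ k.pm).per (Matrix.toLin' φ v) := fun v => by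
    rw [toLin'_apply]
    exact hΨ v
  have hsq : ∀ w : (AVZ k.pm).H, Matrix.toLin' φ (Matrix.toLin' φ w) = -(δ • w) := fun w => by
    rw [toLin'_apply, toLin'_apply]
    change φ *ᵥ (φ *ᵥ w) = _
    rw [mulVec_mulVec, k.kw.sq, neg_mulVec, smul_mulVec, one_mulVec]
  have b1 := hN.bal δ (Matrix.toLin' φ) Ψ α k.kw.pos hΨ' hsq k.kw.al
  have b2 := hN.bal δ (Matrix.toLin' φ) Ψ (-α) k.kw.pos hΨ' hsq (by
    rw [neg_mul_neg]
    exact k.kw.al)
  have hne : pd Z' (U.map (ml F)) ≠ qd Z' (U.map (ml F)) := by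
    intro h4
    apply ht
    rw [← h0]
    unfold tr
    rw [h4, sub_self]
  have c1 : (∃ r : ℚ, δ = d * r ^ 2) ∧
      pd Z' (U.map (ml F)) ≤ qd Z' (U.map (ml F)) + 1 := by
    rw [h1, h3, e1]
    refine b1.resolve_left fun h4 => hne ?_
    rw [h1, h3, e1]
    exact h4
  have c2 : qd Z' (U.map (ml F)) ≤ pd Z' (U.map (ml F)) + 1 := by
    rcases b2 with h4 | ⟨-, h4⟩
    · exfalso
      apply hne
      rw [h1, h3]
      rw [e2] at h4
      exact h4.symm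
    · rw [h1, h3]
      rw [e2] at h4
      exact h4
  obtain ⟨⟨r, hr⟩, c1⟩ := c1
  refine ⟨?_, fun σ => ?_⟩
  · rw [← h0]
    unfold tr
    omega
  · rw [k.tr_rho hU, h0, rho_scale hd k.kw.pos hr]

end kx

theorem t_LOC : S_LOC := by
  intro g Z h d hd hG
  have hL := lcf h hG
  have key : ∀ U, IrS (Pool.Agent.Y90.LZ Z) U →
      ((tr Z U).natAbs ≤ 1 ∧ ∀ σ, tr Z (cjS σ U) = tr Z U * rho d σ) ∨ SDu Z U := by
    intro U hU
    rcases (loc2 h hL hU).2 with ⟨h1, -⟩ | ⟨a, Z', E, F, φ, α, δ, k, hs, ha, -⟩ | ⟨a, Z', E, F, k⟩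
    · exact Or.inr h1
    · exact Or.inl (kx_tr k hd (nice_fac k.fac h k.pm hs ha hG) hU.2.1)
    · have hN := nice_fac k.fac h k.pm k.simple k.pos hG
      have h1 := hN.cm k.cm
      rw [finrank_AVZ] at h1
      have ha : a = 1 := by omega
      have hne : ∃ u ∈ U, ml F u ≠ 0 := by
        obtain ⟨u, hu, hu0⟩ := Submodule.exists_mem_ne_zero_of_ne_bot hU.1
        exact ⟨u, hu, fun h0 => hu0 (k.inj u hu h0)⟩
      have hU' := k.fac.irr hU hne
      have hlc := lc_small k.pm k.simple k.pos (by omega) (fun _ => ha) hU'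
      rcases hlc.or with ⟨-, h2⟩ | ⟨φ, α, δ, kw, h3, h4⟩
      · rw [finrank_ml k.inj, k.dim] at h2
        omega
      · exact Or.inl (kx_tr ⟨k.fac, k.pm, k.inj, kw, h3, h4⟩ hd hN hU.2.1)
  have hsd : ∀ U, IrS (Pool.Agent.Y90.LZ Z) U → SDu Z U → tr Z U = 0 := by
    rintro U hU ⟨b, h0, hb⟩
    have := tr_dual h hU hU h0 hb
    omega
  refine ⟨hL, fun U hU => ?_, fun σ => ⟨rho d σ, fun U hU => ?_⟩⟩
  · rcases key U hU with ⟨h1, -⟩ | h1
    · omega
    · right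
      left
      exact hsd U hU h1
  · rcases key U hU with ⟨-, h1⟩ | h1
    · rw [h1, mul_comm]
    · have h2 := hsd U hU h1
      rw [h2, mul_zero]
      have hU' := hU.cj gal_LZ σ
      rcases key _ hU' with ⟨-, h3⟩ | h3
      · have h4 := h3 σ.symm
        rw [cjS_symm, h2] at h4
        rcases mul_eq_zero.1 h4.symm with h5 | h5
        · exact h5
        · exfalso
          rcases rho_pm d σ.symm with h6 | h6 <;> rw [h6] at h5 <;> norm_num at h5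
      · exact hsd _ hU' h3

/-- The image of a stable line is an irreducible submodule. -/
theorem line_irr {g : ℕ} {L : Submodule ℂ (Matrix (Fin g ⊕ Fin g) (Fin g ⊕ Fin g) ℂ)}
    {U : Submodule ℂ (Fin g ⊕ Fin g → ℂ)} (hst : Stab L U) (h1 : finrank ℂ U = 1) : IrS L U := by
  refine ⟨fun h0 => ?_, hst, fun W hW _ => ?_⟩
  · rw [h0, finrank_bot] at h1
    exact absurd h1 (by norm_num)
  · rcases Nat.eq_zero_or_pos (finrank ℂ W) with h2 | h2
    · left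
      exact Submodule.finrank_eq_zero.1 h2
    · right
      refine Submodule.eq_of_le_of_finrank_le hW ?_
      rw [h1]
      exact h2

theorem t_LINE : S_LINE := by
  intro g Z h d hd f hf hinj
  have hE : PM (ZE (M := 1) (fun _ => d) (fun _ => 1)) := pmE (fun _ => hd) fun _ => one_pos
  obtain ⟨Ψ, hΨ⟩ := hf
  let f' : (Fin 1 ⊕ Fin 1 → ℚ) →ₗ[ℚ] (Fin g ⊕ Fin g → ℚ) := f
  obtain ⟨f₂, hf₂⟩ := LinearMap.exists_leftInverse_of_injective f' (LinearMap.ker_eq_bot.2 hinj)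
  let R : Matrix (Fin g ⊕ Fin g) (Fin 1 ⊕ Fin 1) ℚ := LinearMap.toMatrix' f'
  let S : Matrix (Fin 1 ⊕ Fin 1) (Fin g ⊕ Fin g) ℚ := LinearMap.toMatrix' f₂
  have hSR : S * R = 1 := by
    change LinearMap.toMatrix' f₂ * LinearMap.toMatrix' f' = 1
    rw [← LinearMap.toMatrix'_comp, hf₂, LinearMap.toMatrix'_id]
  have hSR' : cK ℂ S * cK ℂ R = 1 := by rw [← cK_mul, hSR, cK_one]
  have hR : ∀ v, R *ᵥ v = f' v := fun v => LinearMap.toMatrix'_mulVec f' v
  have hc : cK ℂ R * DZ (ZE (M := 1) (fun _ => d) (fun _ => 1)) = DZ Z * cK ℂ R := by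
    have h1 := Cht_conv hE.cht h.cht (R := R) Ψ (fun v => by
      rw [hR]
      exact hΨ v)
    rwa [DJ_JR, DJ_JR] at h1
  have hcs : ∀ σ, cK ℂ R * DS (ZE (M := 1) (fun _ => d) (fun _ => 1)) σ = DS Z σ * cK ℂ R := by
    intro σ
    have h1 := congrArg (fun M => M.map σ) hc
    simp only [Matrix.map_mul, cK_aut] at h1
    exact h1
  have key : ∀ X ∈ Pool.Agent.Y90.LZ Z,
      ∃ Y ∈ Pool.Agent.Y90.LZ (ZE (M := 1) (fun _ => d) (fun _ => 1)),
        X * cK ℂ R = cK ℂ R * Y := by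
    let L : Submodule ℂ (Matrix (Fin g ⊕ Fin g) (Fin g ⊕ Fin g) ℂ) :=
      { carrier := {X | ∃ Y ∈ Pool.Agent.Y90.LZ (ZE (M := 1) (fun _ => d) (fun _ => 1)),
          X * cK ℂ R = cK ℂ R * Y}
        add_mem' := by
          rintro X X' ⟨Y, hY, h1⟩ ⟨Y', hY', h1'⟩
          exact ⟨Y + Y', Submodule.add_mem _ hY hY', by
            rw [Matrix.add_mul, Matrix.mul_add, h1, h1']⟩
        zero_mem' := ⟨0, Submodule.zero_mem _, by rw [Matrix.zero_mul, Matrix.mul_zero]⟩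
        smul_mem' := by
          rintro c X ⟨Y, hY, h1⟩
          exact ⟨c • Y, Submodule.smul_mem _ _ hY, by
            rw [Matrix.smul_mul, Matrix.mul_smul, h1]⟩ }
    have hL : Pool.Agent.Y90.LZ Z ≤ L := by
      refine LZ_le (fun σ => ⟨_, DS_mem σ, (hcs σ).symm⟩) ?_
      rintro A ⟨A', hA', hA⟩ B ⟨B', hB', hB⟩
      refine ⟨A' * B' - B' * A', LZ_br hA' hB', ?_⟩
      rw [Matrix.sub_mul, Matrix.mul_sub, Matrix.mul_assoc, hB, ← Matrix.mul_assoc, hA,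
        Matrix.mul_assoc B, hA, ← Matrix.mul_assoc B, hB, Matrix.mul_assoc, Matrix.mul_assoc]
    exact fun X hX => hL hX
  have hk := kwE (M := 1) hd (l := fun _ => 1) (fun _ => one_pos) (Irt_sq hd) (ε := 1) (by norm_num)
  have hst := hk.stab
  have hdim := hk.dim
  have hinjC : Function.Injective (ml R) := by
    intro x y hxy
    have h2 : cK ℂ R *ᵥ x = cK ℂ R *ᵥ y := hxy
    have h3 := congrArg (fun v => cK ℂ S *ᵥ v) h2
    beta_reduce at h3
    rwa [mulVec_mulVec, mulVec_mulVec, hSR', one_mulVec, one_mulVec] at h3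
  have hd1 : finrank ℂ ((UE (fun _ : Fin 1 => 1) (Complex.I * rt d)).map (ml R)) = 1 := by
    rw [finrank_ml (F := R) (fun u _ hu => hinjC (by rw [hu, map_zero])), hdim]
  refine ⟨_, line_irr ?_ hd1, hd1⟩
  rintro X hX _ ⟨u, hu, rfl⟩
  obtain ⟨Y, hY, hXY⟩ := key X hX
  refine ⟨Y *ᵥ u, hst Y hY u hu, ?_⟩
  rw [ml_apply, ml_apply, mulVec_mulVec, mulVec_mulVec, hXY]

end

end Pool.Agent.N141.GHC
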